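import Mathlib
import Pool.Agent.Q246.FD.Pub
import Pool.Agent.Q246.FD.Spec

/-!
# Rémond's bound for the nilpotent extensions of the Galois extensions unramified outside `S`

Let `K` be a number field, `Γ` a finitely generated subgroup of `K*`, and `Γ_div` its division group. Let
`S` be a finite set of prime numbers. There is a number `A`, which depends only on `K`, `Γ` and `S`, such
that `h(α / γ) ≥ 1 / (A D_Γ(α) ^ A)` for all `γ` in `Γ_div` and all `α` not in `Γ_div` which lie in a
finite Galois extension `L` of `K` that is nilpotent over a Galois extension `E` of `K` whose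
discriminant is divisible by no prime number outside `S`. Here `D_Γ(α)` is the degree of `α` over the
field `ℚ(Γ_div)` generated by the whole division group. For `L = E` this holds for all `α` in the
maximal extension of `K` unramified outside `S`.

All fields are subfields of `AlgebraicClosure ℚ`.
-/

set_option autoImplicit false

namespace Pool.Agent.Results.MP_f61260_nt.NilpotentOverRamifiedInS

open Pool.Agent.Q246.FD

/-- **Main result.** Let `K` be a number field, `Γ` a finitely generated subgroup of `K*`, and `S` a
finite set. There is a positive integer `A` such that for every finite Galois extension `L` of `K`, every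
intermediate field `E` of `L / K` which is Galois over `K`, whose discriminant is divisible by no prime
number outside `S`, and for which `Gal(L / E)` is nilpotent, and every nonzero `α` in `L` which is not in
the division group of `Γ`: the height of `α / γ` is at least `1 / (A D_Γ(α) ^ A)` for all elements `γ` of
the division group. -/
theorem result (K : IntermediateField ℚ (AlgebraicClosure ℚ)) [FiniteDimensional ℚ K]
    (Γ : Subgroup (AlgebraicClosure ℚ)ˣ) (hΓ : Γ.FG)
    (hK : ∀ g ∈ Γ, (g : AlgebraicClosure ℚ) ∈ K) (S : Finset ℕ) :
    ∃ A : ℕ, 0 < A ∧
      ∀ (L : IntermediateField K (AlgebraicClosure ℚ)) [FiniteDimensional K L] [IsGalois K L]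
        (E : IntermediateField K L) [IsGalois K E] [NumberField E],
        Group.IsNilpotent (L ≃ₐ[E] L) →
        (∀ p : ℕ, p.Prime → (p : ℤ) ∣ NumberField.discr E → p ∈ S) →
        ∀ α ∈ L, HeightBound Γ A α := by
  obtain ⟨A, hA, h⟩ := nilp K Γ hΓ hK (insert 2 S)
  refine ⟨A, hA, ?_⟩
  intro L hLfd hL E hE hEn hN hR
  refine h L hLfd hL E hE hN ?_
  intro p hp hpP _ ζ hζ hζE
  apply hpP
  rw [Finset.mem_insert]
  by_cases hp2 : p = 2
  · exact Or.inl hp2
  · right
    have h1 : IsPrimitiveRoot (⟨ζ, hζE⟩ : E) p :=
      IsPrimitiveRoot.of_map_of_injective (f := E.val) (by exact hζ) E.val.injective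
    exact hR p hp (discr_root hp hp2 h1)

end Pool.Agent.Results.MP_f61260_nt.NilpotentOverRamifiedInS
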