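import Mathlib
import Pool.Agent.Q246.FD.Pub
import Pool.Agent.Q246.FD.Spec

/-!
# Rémond's bound for the nilpotent extensions of real Galois extensions

Let `K` be a number field, `Γ` a finitely generated subgroup of `K*`, and `Γ_div` its division group.
There is a number `A`, which depends only on `K` and `Γ`, such that `h(α / γ) ≥ 1 / (A D_Γ(α) ^ A)` for
all `γ` in `Γ_div` and all `α` not in `Γ_div` which lie in a finite Galois extension `L` of `K` that is
nilpotent over a Galois extension `E` of `K` with a real embedding. Here `D_Γ(α)` is the degree of `α`
over the field `ℚ(Γ_div)` generated by the whole division group. For instance `L` may be any nilpotent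
extension of a real number field `K`, or any Galois extension of `K = ℚ` which is a CM field, or which is
abelian over its maximal totally real subfield.

All fields are subfields of `AlgebraicClosure ℚ`.
-/

set_option autoImplicit false

namespace Pool.Agent.Results.MP_f61260_nt.NilpotentOverRealFields

open Pool.Agent.Q246.FD

/-- **Main result.** Let `K` be a number field and `Γ` a finitely generated subgroup of `K*`. There is a
positive integer `A` such that for every finite Galois extension `L` of `K`, every intermediate field `E`
of `L / K` which is Galois over `K`, has a real embedding and for which `Gal(L / E)` is nilpotent, and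
every nonzero `α` in `L` which is not in the division group of `Γ`: the height of `α / γ` is at least
`1 / (A D_Γ(α) ^ A)` for all elements `γ` of the division group. -/
theorem result (K : IntermediateField ℚ (AlgebraicClosure ℚ)) [FiniteDimensional ℚ K]
    (Γ : Subgroup (AlgebraicClosure ℚ)ˣ) (hΓ : Γ.FG)
    (hK : ∀ g ∈ Γ, (g : AlgebraicClosure ℚ) ∈ K) :
    ∃ A : ℕ, 0 < A ∧
      ∀ (L : IntermediateField K (AlgebraicClosure ℚ)) [FiniteDimensional K L] [IsGalois K L]
        (E : IntermediateField K L) [IsGalois K E],
        Group.IsNilpotent (L ≃ₐ[E] L) → Nonempty (E →+* ℝ) → ∀ α ∈ L, HeightBound Γ A α := by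
  obtain ⟨A, hA, h⟩ := nilp K Γ hΓ hK {2}
  refine ⟨A, hA, ?_⟩
  intro L hLfd hL E hE hN hR
  obtain ⟨φ⟩ := hR
  refine h L hLfd hL E hE hN ?_
  intro p hp hpP _ ζ hζ hζE
  apply hpP
  rw [Finset.mem_singleton]
  have h1 : IsPrimitiveRoot (⟨ζ, hζE⟩ : E) p :=
    IsPrimitiveRoot.of_map_of_injective (f := E.val) (by exact hζ) E.val.injective
  exact real_root φ hp h1

end Pool.Agent.Results.MP_f61260_nt.NilpotentOverRealFields
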