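import Mathlib
import Pool.Agent.Q246.FD.Pub
import Pool.Agent.Q246.FD.Spec

/-!
# Rémond's bound for Galois groups with a small abelianization, and their nilpotent extensions

Let `K` be a number field, `Γ` a finitely generated subgroup of `K*`, `Γ_div` its division group, and `B`
a number. There is a number `A`, which depends only on `K`, `Γ` and `B`, such that
`h(α / γ) ≥ 1 / (A D_Γ(α) ^ A)` for all `γ` in `Γ_div` and all `α` not in `Γ_div` which lie in a finite
Galois extension `L` of `K` that is nilpotent over a Galois extension `E` of `K` for which the
abelianization of `Gal(E / K)` has order at most `B`. Here `D_Γ(α)` is the degree of `α` over the field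
`ℚ(Γ_div)` generated by the whole division group. For `L = E` and `B = 2` this holds for all algebraic
numbers of arbitrary degree `n` over `K` whose Galois group over `K` is the symmetric or the
alternating group (`n ≠ 3, 4` in the alternating case), and for all algebraic numbers whose Galois group
is perfect; for `E = K` it holds for all nilpotent extensions `L` of `K`.

All fields are subfields of `AlgebraicClosure ℚ`.
-/

set_option autoImplicit false

namespace Pool.Agent.Results.MP_f61260_nt.NilpotentOverSmallAbelianization

open Pool.Agent.Q246.FD

/-- **Main result.** Let `K` be a number field, `Γ` a finitely generated subgroup of `K*`, and `B` a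
natural number. There is a positive integer `A` such that for every finite Galois extension `L` of `K`,
every intermediate field `E` of `L / K` which is Galois over `K`, for which the abelianization of
`Gal(E / K)` has order at most `B` and `Gal(L / E)` is nilpotent, and every nonzero `α` in `L` which is
not in the division group of `Γ`: the height of `α / γ` is at least `1 / (A D_Γ(α) ^ A)` for all elements
`γ` of the division group. -/
theorem result (K : IntermediateField ℚ (AlgebraicClosure ℚ)) [FiniteDimensional ℚ K]
    (Γ : Subgroup (AlgebraicClosure ℚ)ˣ) (hΓ : Γ.FG)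
    (hK : ∀ g ∈ Γ, (g : AlgebraicClosure ℚ) ∈ K) (B : ℕ) :
    ∃ A : ℕ, 0 < A ∧
      ∀ (L : IntermediateField K (AlgebraicClosure ℚ)) [FiniteDimensional K L] [IsGalois K L]
        (E : IntermediateField K L) [IsGalois K E],
        Group.IsNilpotent (L ≃ₐ[E] L) → Nat.card (Abelianization (E ≃ₐ[K] E)) ≤ B →
        ∀ α ∈ L, HeightBound Γ A α := by
  obtain ⟨A, hA, h⟩ := nilp K Γ hΓ hK (Finset.range (B * Module.finrank ℚ K + 2))
  refine ⟨A, hA, ?_⟩
  intro L hLfd hL E hE hN hR
  refine h L hLfd hL E hE hN ?_
  intro p hp hpP _ ζ hζ hζE
  apply hpP
  rw [Finset.mem_range]
  have hKn : NumberField K := { to_charZero := inferInstance, to_finiteDimensional := inferInstance }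
  have h1 : IsPrimitiveRoot (⟨ζ, hζE⟩ : E) p :=
    IsPrimitiveRoot.of_map_of_injective (f := E.val) (by exact hζ) E.val.injective
  have h2 := ab_root (K := K) hp h1
  have h3 := Nat.mul_le_mul_right (Module.finrank ℚ K) hR
  omega

end Pool.Agent.Results.MP_f61260_nt.NilpotentOverSmallAbelianization
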