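import Mathlib
import Pool.Agent.Q246.FD.Pub

/-!
# Rémond's bound for the Galois extensions without Galois subextensions of Kummer type

Let `K` be a number field, `Γ` a finitely generated subgroup of `K*`, `Γ_div` its division group, and `P`
a finite set of prime numbers. There is a number `A`, which depends only on `K`, `Γ` and `P`, such that
`h(α / γ) ≥ 1 / (A D_Γ(α) ^ A)` for all `γ` in `Γ_div` and all `α` not in `Γ_div` which lie in a Galois
extension `L` of `K` of the following kind: for no prime number `p` outside `P` and no Galois extension
`M` of `K` contained in `L` does `Gal(M / K)` contain a subgroup of order `p` on which the automorphisms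
of `ℚ̄` over `K` act by conjugation as they act on the `p`-th roots of unity (`M` is of Kummer type at
`p`). Here `D_Γ(α)` is the degree of `α` over the field `ℚ(Γ_div)` generated by the whole division group.

All fields are subfields of `AlgebraicClosure ℚ`.
-/

set_option autoImplicit false

namespace Pool.Agent.Results.MP_f61260_nt.NoKummerType

open Pool.Agent.Q246.FD

/-- **Main result.** Let `K` be a number field, `Γ` a finitely generated subgroup of `K*`, and `P` a
finite set. There is a positive integer `A` such that for every finite or infinite Galois extension `L` of
`K` which contains no Galois extension of `K` of Kummer type at a prime number outside `P`, and every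
nonzero `α` in `L` which is not in the division group of `Γ`: the height of `α / γ` is at least
`1 / (A D_Γ(α) ^ A)` for all elements `γ` of the division group. -/
theorem result (K : IntermediateField ℚ (AlgebraicClosure ℚ)) [FiniteDimensional ℚ K]
    (Γ : Subgroup (AlgebraicClosure ℚ)ˣ) (hΓ : Γ.FG)
    (hK : ∀ g ∈ Γ, (g : AlgebraicClosure ℚ) ∈ K) (P : Finset ℕ) :
    ∃ A : ℕ, 0 < A ∧
      ∀ L : IntermediateField K (AlgebraicClosure ℚ), IsGalois K L →
        (∀ p : ℕ, p.Prime → p ∉ P → ∀ M : IntermediateField K (AlgebraicClosure ℚ), M ≤ L →
          IsGalois K M → ¬ KummerType K M p) →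
        ∀ α ∈ L, HeightBound Γ A α :=
  criterion K Γ hΓ hK P

end Pool.Agent.Results.MP_f61260_nt.NoKummerType
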